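import Mathlib

/-!
# Todd pseudocomplete dense subgroups of products of metrizable groups

If a dense subgroup of a product of metrizable groups is Todd pseudocomplete, then every factor is
completely metrizable.
-/

namespace Pool.Agent.Results.MP_5e9a16_gt.ToddSubgroup

open Set Topology Filter TopologicalSpace

/-- A pseudobase: every member has non-empty interior and every non-empty open set contains a
member. -/
def IsPseudobase {X : Type*} [TopologicalSpace X] (ℬ : Set (Set X)) : Prop :=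
  (∀ B ∈ ℬ, (interior B).Nonempty) ∧ ∀ O : Set X, IsOpen O → O.Nonempty → ∃ B ∈ ℬ, B ⊆ O

/-- Todd pseudocomplete spaces: there is a sequence of pseudobases `ℬ n` such that every nested
sequence `B n ∈ ℬ n` (nested: `closure (B (n + 1)) ⊆ interior (B n)`) has non-empty
intersection. -/
def ToddPseudocomplete (X : Type*) [TopologicalSpace X] : Prop :=
  ∃ ℬ : ℕ → Set (Set X), (∀ n, IsPseudobase (ℬ n)) ∧
    ∀ B : ℕ → Set X, (∀ n, B n ∈ ℬ n) → (∀ n, closure (B (n + 1)) ⊆ interior (B n)) →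
      (⋂ n, B n).Nonempty

/-! ## The tree lemma -/

/-- A maximal disjoint subfamily of a family `P` of sets. -/
theorem exists_maximal_disjoint {B : Type*} (P : Set (Set B)) :
    ∃ W : Set (Set B), W ⊆ P ∧ W.PairwiseDisjoint id ∧
      ∀ w ∈ P, w.Nonempty → ¬ Disjoint w (⋃₀ W) := by
  obtain ⟨W, hW⟩ := zorn_subset {W : Set (Set B) | W ⊆ P ∧ W.PairwiseDisjoint id} (by
    intro c hc hchain
    refine ⟨⋃₀ c, ⟨sUnion_subset fun s hs => (hc hs).1, ?_⟩, fun s hs => subset_sUnion_of_mem hs⟩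
    intro a ha b hb hab
    obtain ⟨s, hs, has⟩ := ha
    obtain ⟨t, ht, hbt⟩ := hb
    rcases hchain.total hs ht with h | h
    · exact (hc ht).2 (h has) hbt hab
    · exact (hc hs).2 has (h hbt) hab)
  refine ⟨W, hW.prop.1, hW.prop.2, ?_⟩
  intro w hw hwn hdis
  have h1 : insert w W ∈ {W : Set (Set B) | W ⊆ P ∧ W.PairwiseDisjoint id} := by
    refine ⟨insert_subset hw hW.prop.1, ?_⟩
    refine hW.prop.2.insert ?_
    intro j hj _
    exact hdis.mono_right (subset_sUnion_of_mem hj)
  have h2 : w ∈ W := hW.le_of_ge h1 (subset_insert w W) (mem_insert w W)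
  obtain ⟨x, hx⟩ := hwn
  exact (Set.disjoint_left.mp hdis) hx ⟨w, h2, hx⟩

/-- A stage of the construction: a dense open set `E` of the target, and for each `z ∈ E` a set
`V z` of the source with `z` in the interior of the closure of the image of `interior (V z)`,
locally constant in `z`. -/
structure Stage {X M : Type*} [TopologicalSpace X] [TopologicalSpace M] (f : X → M) where
  E : Set M
  V : M → Set X
  isOpen_E : IsOpen E
  dense_E : Dense E
  mem_int : ∀ z ∈ E, z ∈ interior (closure (f '' (interior (V z))))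
  loc_const : ∀ z ∈ E, ∃ W, IsOpen W ∧ z ∈ W ∧ W ⊆ E ∧ ∀ z' ∈ W, V z' = V z

theorem step {X M : Type*} [TopologicalSpace X] [RegularSpace X] [MetricSpace M] {f : X → M}
    (hc : Continuous f)
    (hf : ∀ O : Set X, IsOpen O → O.Nonempty → (interior (closure (f '' O))).Nonempty)
    (s : Stage f) {ℬ : Set (Set X)} (hℬ : IsPseudobase ℬ) {ε : ℝ} (hε : 0 < ε) :
    ∃ s' : Stage f, s'.E ⊆ s.E ∧ ∀ z ∈ s'.E, s'.V z ∈ ℬ ∧ closure (s'.V z) ⊆ interior (s.V z) ∧
      ∀ x ∈ s'.V z, dist z (f x) ≤ ε := by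
  classical
  set P : Set (Set M) := {W | IsOpen W ∧ W ⊆ s.E ∧ ∃ V' : Set X, V' ∈ ℬ ∧
    W ⊆ interior (closure (f '' (interior V'))) ∧
    ∀ z ∈ W, closure V' ⊆ interior (s.V z) ∧ ∀ x ∈ V', dist z (f x) ≤ ε} with hP
  have hex : ∀ W0 : Set M, IsOpen W0 → W0 ⊆ s.E → W0.Nonempty → ∃ W ∈ P, W ⊆ W0 ∧ W.Nonempty := by
    intro W0 hW0 hsub hne
    obtain ⟨z0, hz0⟩ := hne
    obtain ⟨W1, hW1, hz1, hW1E, hconst⟩ := s.loc_const z0 (hsub hz0)
    have hz2 := s.mem_int z0 (hsub hz0)
    obtain ⟨y, hy, x, hx, rfl⟩ : ∃ y ∈ W0 ∩ W1, y ∈ f '' (interior (s.V z0)) := by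
      have h1 : z0 ∈ closure (f '' (interior (s.V z0))) := interior_subset hz2
      rw [mem_closure_iff] at h1
      obtain ⟨y, hy1, hy2⟩ := h1 (W0 ∩ W1) (hW0.inter hW1) ⟨hz0, hz1⟩
      exact ⟨y, hy1, hy2⟩
    obtain ⟨r, hr, hrW⟩ := Metric.nhds_basis_closedBall.mem_iff.mp ((hW0.inter hW1).mem_nhds hy)
    set r' := min r (ε / 2) with hr'
    have hr'0 : 0 < r' := lt_min hr (by positivity)
    have hopen2 : IsOpen (interior (s.V z0) ∩ f ⁻¹' (Metric.ball (f x) r')) :=
      isOpen_interior.inter (Metric.isOpen_ball.preimage hc)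
    obtain ⟨t, ht, htc, hts⟩ := exists_mem_nhds_isClosed_subset
      (hopen2.mem_nhds (x := x) ⟨hx, Metric.mem_ball_self hr'0⟩)
    obtain ⟨V', hV', hV't⟩ := hℬ.2 (interior t) isOpen_interior
      ⟨x, mem_interior_iff_mem_nhds.mpr ht⟩
    have hclV : closure V' ⊆ interior (s.V z0) ∩ f ⁻¹' (Metric.ball (f x) r') :=
      (closure_minimal (hV't.trans interior_subset) htc).trans hts
    have hball : ∀ w ∈ interior (closure (f '' (interior V'))), w ∈ Metric.closedBall (f x) r' := by
      intro w hw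
      have h1 : f '' (interior V') ⊆ Metric.closedBall (f x) r' := by
        rintro _ ⟨v, hv, rfl⟩
        exact Metric.ball_subset_closedBall (hclV (subset_closure (interior_subset hv))).2
      exact closure_minimal h1 Metric.isClosed_closedBall (interior_subset hw)
    have hin : ∀ w ∈ interior (closure (f '' (interior V'))), w ∈ W0 ∩ W1 := fun w hw =>
      hrW (Metric.closedBall_subset_closedBall (min_le_left _ _) (hball w hw))
    refine ⟨interior (closure (f '' (interior V'))), ⟨isOpen_interior, ?_, V', hV', Subset.rfl, ?_⟩,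
      fun w hw => (hin w hw).1, hf _ isOpen_interior (hℬ.1 V' hV')⟩
    · exact fun w hw => hW1E (hin w hw).2
    · intro w hw
      rw [hconst _ (hin w hw).2]
      refine ⟨hclV.trans inter_subset_left, fun v hv => ?_⟩
      have h1 := hball w hw
      have h2 := (hclV (subset_closure hv)).2
      rw [mem_preimage, Metric.mem_ball, dist_comm] at h2
      rw [Metric.mem_closedBall] at h1
      have h3 : r' ≤ ε / 2 := min_le_right _ _
      linarith [dist_triangle w (f x) (f v)]
  obtain ⟨𝒲, h𝒲P, h𝒲d, h𝒲m⟩ := exists_maximal_disjoint P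
  -- choose the sets
  have hch : ∀ W : Set M, ∃ V' : Set X, W ∈ P → (V' ∈ ℬ ∧
      W ⊆ interior (closure (f '' (interior V'))) ∧
      ∀ z ∈ W, closure V' ⊆ interior (s.V z) ∧ ∀ x ∈ V', dist z (f x) ≤ ε) := by
    intro W
    by_cases hW : W ∈ P
    · obtain ⟨_, _, V', h1⟩ := hW
      exact ⟨V', fun _ => h1⟩
    · exact ⟨∅, fun h => absurd h hW⟩
  choose F hF using hch
  set G : M → Set X := fun z => if h : ∃ W ∈ 𝒲, z ∈ W then F h.choose else ∅ with hG
  have hGeq : ∀ W ∈ 𝒲, ∀ z ∈ W, G z = F W := by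
    intro W hW z hz
    have h : ∃ W ∈ 𝒲, z ∈ W := ⟨W, hW, hz⟩
    have h1 : h.choose = W := by
      by_contra hne
      have := h𝒲d h.choose_spec.1 hW hne
      exact (Set.disjoint_left.mp this) h.choose_spec.2 hz
    simp only [hG, dif_pos h, h1]
  refine ⟨⟨⋃₀ 𝒲, G, isOpen_sUnion fun W hW => (h𝒲P hW).1, ?_, ?_, ?_⟩, ?_, ?_⟩
  · -- density
    rw [dense_iff_closure_eq, ← univ_subset_iff, ← s.dense_E.closure_eq]
    refine closure_minimal ?_ isClosed_closure
    by_contra hnot
    obtain ⟨z, hzE, hz⟩ := Set.not_subset.mp hnot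
    obtain ⟨W, hWP, hWsub, hWne⟩ := hex (s.E ∩ (closure (⋃₀ 𝒲))ᶜ)
      (s.isOpen_E.inter isClosed_closure.isOpen_compl) inter_subset_left ⟨z, hzE, hz⟩
    refine h𝒲m W hWP hWne ?_
    rw [Set.disjoint_left]
    intro y hy hy2
    exact (hWsub hy).2 (subset_closure hy2)
  · rintro z ⟨W, hW, hz⟩
    rw [hGeq W hW z hz]
    exact (hF W (h𝒲P hW)).2.1 hz
  · rintro z ⟨W, hW, hz⟩
    refine ⟨W, (h𝒲P hW).1, hz, subset_sUnion_of_mem hW, fun z' hz' => ?_⟩
    rw [hGeq W hW z hz, hGeq W hW z' hz']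
  · rintro z ⟨W, hW, hz⟩
    exact (h𝒲P hW).2.1 hz
  · rintro z ⟨W, hW, hz⟩
    change G z ∈ ℬ ∧ closure (G z) ⊆ _ ∧ ∀ x ∈ G z, dist z (f x) ≤ ε
    rw [hGeq W hW z hz]
    obtain ⟨h1, h2, h3⟩ := hF W (h𝒲P hW)
    exact ⟨h1, (h3 z hz).1, (h3 z hz).2⟩

/-- The tree lemma. -/
theorem tree_lemma {X M : Type*} [TopologicalSpace X] [RegularSpace X] [MetricSpace M] {f : X → M}
    (hX : ToddPseudocomplete X) (hc : Continuous f) (hd : DenseRange f)
    (hf : ∀ O : Set X, IsOpen O → O.Nonempty → (interior (closure (f '' O))).Nonempty) :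
    ∃ U : ℕ → Set M, (∀ n, IsOpen (U n)) ∧ (∀ n, Dense (U n)) ∧ (⋂ n, U n) ⊆ range f := by
  obtain ⟨ℬ, hℬ, hcomp⟩ := hX
  have s0 : Stage f := ⟨univ, fun _ => univ, isOpen_univ, dense_univ, fun z _ => by
    rw [interior_univ, image_univ, hd.closure_range, interior_univ]
    exact mem_univ z, fun z _ => ⟨univ, isOpen_univ, mem_univ z, Subset.rfl, fun _ _ => rfl⟩⟩
  choose nxt hnxt1 hnxt2 using fun (n : ℕ) (s : Stage f) =>
    step hc hf s (hℬ n) (show (0 : ℝ) < 1 / ((n : ℝ) + 1) by positivity)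
  let s : ℕ → Stage f := fun n => Nat.rec s0 (fun n s => nxt n s) n
  have hs1 : ∀ n, (s (n + 1)).E ⊆ (s n).E := fun n => hnxt1 n (s n)
  have hs2 : ∀ n, ∀ z ∈ (s (n + 1)).E, (s (n + 1)).V z ∈ ℬ n ∧
      closure ((s (n + 1)).V z) ⊆ interior ((s n).V z) ∧
      ∀ x ∈ (s (n + 1)).V z, dist z (f x) ≤ 1 / ((n : ℝ) + 1) :=
    fun n => hnxt2 n (s n)
  refine ⟨fun n => (s (n + 1)).E, fun n => (s (n + 1)).isOpen_E, fun n => (s (n + 1)).dense_E, ?_⟩
  intro z hz
  rw [mem_iInter] at hz
  obtain ⟨x, hx⟩ := hcomp (fun n => (s (n + 1)).V z) (fun n => (hs2 n z (hz n)).1)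
    (fun n => (hs2 (n + 1) z (hz (n + 1))).2.1)
  refine ⟨x, ?_⟩
  have h1 : ∀ n : ℕ, dist z (f x) ≤ 1 / ((n : ℝ) + 1) := fun n =>
    (hs2 n z (hz n)).2.2 x (mem_iInter.mp hx n)
  have h2 : dist z (f x) ≤ 0 := ge_of_tendsto' tendsto_one_div_add_atTop_nhds_zero_nat h1
  exact (dist_le_zero.mp h2).symm

/-! ## Groups with a left-invariant uniform structure -/

section Group

open UniformSpace

variable {H : Type*} [MetricSpace H] [Group H] [IsLeftUniformGroup H]

theorem exists_nhds_of_dist {ε : ℝ} (hε : 0 < ε) :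
    ∃ V ∈ 𝓝 (1 : H), ∀ x y : H, x⁻¹ * y ∈ V → dist x y < ε := by
  have h1 : {p : H × H | dist p.1 p.2 < ε} ∈ uniformity H := Metric.dist_mem_uniformity hε
  rw [uniformity_eq_comap_inv_mul_nhds_one, mem_comap] at h1
  obtain ⟨V, hV, hVs⟩ := h1
  exact ⟨V, hV, fun x y hxy => hVs (show (x, y) ∈ _ from hxy)⟩

theorem exists_dist_of_nhds {V : Set H} (hV : V ∈ 𝓝 (1 : H)) :
    ∃ δ > 0, ∀ x y : H, dist x y < δ → x⁻¹ * y ∈ V := by
  have h1 : (fun p : H × H => p.1⁻¹ * p.2) ⁻¹' V ∈ uniformity H := by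
    rw [uniformity_eq_comap_inv_mul_nhds_one]
    exact preimage_mem_comap hV
  obtain ⟨δ, hδ, h2⟩ := Metric.mem_uniformity_dist.mp h1
  exact ⟨δ, hδ, fun x y hxy => h2 hxy⟩

/-- Cauchy sequences: differences are eventually in every neighbourhood of `1`. -/
theorem cauchy_diff {x : ℕ → H} (hx : CauchySeq x) {V : Set H} (hV : V ∈ 𝓝 (1 : H)) :
    ∃ N, ∀ n, N ≤ n → ∀ m, N ≤ m → (x n)⁻¹ * x m ∈ V := by
  obtain ⟨δ, hδ, h1⟩ := exists_dist_of_nhds hV
  obtain ⟨N, hN⟩ := Metric.cauchySeq_iff.mp hx δ hδ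
  exact ⟨N, fun n hn m hm => h1 _ _ (hN n hn m hm)⟩

/-- Right translates of Cauchy sequences are Cauchy. -/
theorem cauchy_mul {x : ℕ → H} (hx : CauchySeq x) (a : H) : CauchySeq fun n => x n * a := by
  rw [Metric.cauchySeq_iff]
  intro ε hε
  obtain ⟨V, hV, h1⟩ := exists_nhds_of_dist (H := H) hε
  have h2 : (fun g : H => a⁻¹ * g * a) ⁻¹' V ∈ 𝓝 (1 : H) := by
    have h3 : Continuous (fun g : H => a⁻¹ * g * a) := by fun_prop
    refine h3.continuousAt.preimage_mem_nhds ?_
    simpa using hV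
  obtain ⟨N, hN⟩ := cauchy_diff hx h2
  refine ⟨N, fun n hn m hm => h1 _ _ ?_⟩
  have h4 := hN n hn m hm
  simp only [mem_preimage] at h4
  convert h4 using 1
  group

/-- The limit of the left translations by the terms of a Cauchy sequence. -/
theorem exists_limit_map {x : ℕ → H} (hx : CauchySeq x) :
    ∃ Φ : Completion H → Completion H, Continuous Φ ∧
      ∀ a : H, Tendsto (fun n => ((x n * a : H) : Completion H)) atTop (𝓝 (Φ a)) := by
  have h1 : ∀ a : H, ∃ l : Completion H,
      Tendsto (fun n => ((x n * a : H) : Completion H)) atTop (𝓝 l) := fun a =>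
    cauchySeq_tendsto_of_complete
      ((Completion.uniformContinuous_coe H).comp_cauchySeq (cauchy_mul hx a))
  choose φ hφ using h1
  have hφu : UniformContinuous φ := by
    rw [Metric.uniformContinuous_iff]
    intro ε hε
    obtain ⟨V, hV, h2⟩ := exists_nhds_of_dist (H := H) (half_pos hε)
    obtain ⟨δ, hδ, h3⟩ := exists_dist_of_nhds hV
    refine ⟨δ, hδ, fun a b hab => ?_⟩
    have h4 : ∀ n, dist ((x n * a : H) : Completion H) ((x n * b : H) : Completion H) ≤ ε / 2 := by
      intro n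
      rw [Completion.dist_eq]
      refine (h2 _ _ ?_).le
      have : (x n * a)⁻¹ * (x n * b) = a⁻¹ * b := by group
      rw [this]
      exact h3 a b hab
    have h5 : dist (φ a) (φ b) ≤ ε / 2 := le_of_tendsto' ((hφ a).dist (hφ b)) h4
    linarith
  refine ⟨Completion.extension φ, Completion.continuous_extension, fun a => ?_⟩
  rw [Completion.extension_coe hφu]
  exact hφ a

/-- The limit maps of a two-sided Cauchy sequence and of its inverse are inverse to each other. -/
theorem limit_map_inv {x : ℕ → H} (hx : CauchySeq x)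
    {Φ Ψ : Completion H → Completion H} (hΦ : Continuous Φ) (hΨ : Continuous Ψ)
    (h1 : ∀ a : H, Tendsto (fun n => ((x n * a : H) : Completion H)) atTop (𝓝 (Φ a)))
    (h2 : ∀ a : H, Tendsto (fun n => (((x n)⁻¹ * a : H) : Completion H)) atTop (𝓝 (Ψ a))) :
    ∀ w, Ψ (Φ w) = w := by
  have key : Ψ ∘ Φ = id := by
    refine Completion.ext (hΨ.comp hΦ) continuous_id fun a => ?_
    simp only [Function.comp_apply, id]
    have h3 : Tendsto (fun n => Ψ ((x n * a : H) : Completion H)) atTop (𝓝 (Ψ (Φ a))) :=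
      (hΨ.tendsto _).comp (h1 a)
    have h4 : Tendsto (fun n => Ψ ((x n * a : H) : Completion H)) atTop (𝓝 (a : Completion H)) := by
      rw [Metric.tendsto_atTop]
      intro ε hε
      obtain ⟨V, hV, h5⟩ := exists_nhds_of_dist (H := H) (half_pos hε)
      have h6 : (fun g : H => a⁻¹ * g * a) ⁻¹' V ∈ 𝓝 (1 : H) := by
        have h7 : Continuous (fun g : H => a⁻¹ * g * a) := by fun_prop
        refine h7.continuousAt.preimage_mem_nhds ?_
        simpa using hV
      obtain ⟨N, hN⟩ := cauchy_diff hx h6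
      refine ⟨N, fun n hn => ?_⟩
      have h8 : ∀ᶠ m in atTop, dist (((x m)⁻¹ * (x n * a) : H) : Completion H) a ≤ ε / 2 := by
        filter_upwards [eventually_ge_atTop N] with m hm
        rw [Completion.dist_eq]
        refine (h5 _ _ ?_).le
        have h9 := hN n hn m hm
        simp only [mem_preimage] at h9
        convert h9 using 1
        group
      have h10 := le_of_tendsto ((h2 (x n * a)).dist tendsto_const_nhds) h8
      linarith
    exact tendsto_nhds_unique h3 h4
  intro w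
  exact congrFun key w

/-- The main point: convergence of `x n` and of `(x n)⁻¹` in the completion forces convergence in
the group. -/
theorem tendsto_of_comeager {U : ℕ → Set (Completion H)} (hUo : ∀ n, IsOpen (U n))
    (hUd : ∀ n, Dense (U n)) (hUs : (⋂ n, U n) ⊆ range ((↑) : H → Completion H))
    {x : ℕ → H} (hx : CauchySeq x) (hx' : CauchySeq fun n => (x n)⁻¹) :
    ∃ h : H, Tendsto x atTop (𝓝 h) := by
  obtain ⟨Φ, hΦ, h1⟩ := exists_limit_map hx
  obtain ⟨Ψ, hΨ, h2⟩ := exists_limit_map hx'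
  have hinv1 : ∀ w, Ψ (Φ w) = w := limit_map_inv hx hΦ hΨ h1 h2
  have hinv2 : ∀ w, Φ (Ψ w) = w := limit_map_inv hx' hΨ hΦ h2 (by simpa using h1)
  let e : Completion H ≃ₜ Completion H := ⟨⟨Φ, Ψ, hinv1, hinv2⟩, hΦ, hΨ⟩
  have hdense : Dense (⋂ n, (U n ∩ Φ ⁻¹' (U n))) := by
    refine dense_iInter_of_isOpen (fun n => (hUo n).inter ((hUo n).preimage hΦ)) fun n => ?_
    exact (hUd n).inter_of_isOpen_left ((hUd n).preimage e.isOpenMap) (hUo n)
  have hne : Nonempty (Completion H) := ⟨((1 : H) : Completion H)⟩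
  obtain ⟨w, hw⟩ := hdense.nonempty
  rw [mem_iInter] at hw
  obtain ⟨d, hd⟩ := hUs (mem_iInter.mpr fun n => (hw n).1)
  obtain ⟨h, hh⟩ := hUs (mem_iInter.mpr fun n => (hw n).2)
  subst hd
  have h3 : Tendsto (fun n => ((x n * d : H) : Completion H)) atTop (𝓝 (h : Completion H)) := by
    rw [hh]
    exact h1 d
  have h4 : Tendsto (fun n => x n * d) atTop (𝓝 h) :=
    (Completion.isUniformEmbedding_coe H).isEmbedding.tendsto_nhds_iff.mpr h3
  refine ⟨h * d⁻¹, ?_⟩
  have h5 := h4.mul_const d⁻¹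
  simpa using h5

theorem completely_metrizable_of_comeager {U : ℕ → Set (Completion H)} (hUo : ∀ n, IsOpen (U n))
    (hUd : ∀ n, Dense (U n)) (hUs : (⋂ n, U n) ⊆ range ((↑) : H → Completion H)) :
    IsCompletelyMetrizableSpace H := by
  set j : H → Completion H × Completion H := fun x => ((x : Completion H), ((x⁻¹ : H) : Completion H))
    with hj
  have hcoe : IsEmbedding ((↑) : H → Completion H) :=
    (Completion.isUniformEmbedding_coe H).isEmbedding
  have hjc : Continuous j :=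
    (hcoe.continuous).prodMk (hcoe.continuous.comp continuous_inv)
  have hje : IsEmbedding j := by
    refine IsEmbedding.of_comp hjc continuous_fst ?_
    exact hcoe
  have hcl : IsClosed (range j) := by
    rw [← closure_eq_iff_isClosed]
    refine Subset.antisymm ?_ subset_closure
    intro p hp
    obtain ⟨q, hq, hqp⟩ := mem_closure_iff_seq_limit.mp hp
    choose x hx using hq
    have h1 : Tendsto (fun n => (x n : Completion H)) atTop (𝓝 p.1) := by
      have := (continuous_fst.tendsto p).comp hqp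
      refine this.congr fun n => ?_
      simp only [Function.comp_apply, ← hx n, hj]
    have h2 : Tendsto (fun n => (((x n)⁻¹ : H) : Completion H)) atTop (𝓝 p.2) := by
      have := (continuous_snd.tendsto p).comp hqp
      refine this.congr fun n => ?_
      simp only [Function.comp_apply, ← hx n, hj]
    have h3 : CauchySeq x := (Completion.isUniformInducing_coe H).cauchy_map_iff.mp h1.cauchySeq
    have h4 : CauchySeq fun n => (x n)⁻¹ :=
      (Completion.isUniformInducing_coe H).cauchy_map_iff.mp h2.cauchySeq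
    obtain ⟨h, hh⟩ := tendsto_of_comeager hUo hUd hUs h3 h4
    refine ⟨h, ?_⟩
    have h5 : Tendsto (fun n => j (x n)) atTop (𝓝 (j h)) := (hjc.tendsto h).comp hh
    have h6 : (fun n => j (x n)) = q := funext hx
    rw [h6] at h5
    exact tendsto_nhds_unique h5 hqp
  exact (⟨hje, hcl⟩ : IsClosedEmbedding j).IsCompletelyMetrizableSpace

end Group

/-! ## The result -/

/-- If a dense subgroup `G` of a product of (Hausdorff) metrizable topological groups `H i` is Todd
pseudocomplete, then every `H i` is completely metrizable. -/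
theorem result {I : Type*} {H : I → Type*} [∀ i, Group (H i)] [∀ i, TopologicalSpace (H i)]
    [∀ i, IsTopologicalGroup (H i)] [∀ i, MetrizableSpace (H i)]
    (G : Subgroup (∀ i, H i)) (hG : Dense (G : Set (∀ i, H i))) (hT : ToddPseudocomplete G)
    (j : I) : IsCompletelyMetrizableSpace (H j) := by
  classical
  let _ : UniformSpace (H j) := IsTopologicalGroup.leftUniformSpace (H j)
  have hleft : IsLeftUniformGroup (H j) := ⟨rfl⟩
  have hcg : (uniformity (H j)).IsCountablyGenerated := by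
    rw [uniformity_eq_comap_inv_mul_nhds_one]
    infer_instance
  let _ : MetricSpace (H j) := UniformSpace.metricSpace (H j)
  have hleft' : IsLeftUniformGroup (H j) := hleft
  set c : H j → UniformSpace.Completion (H j) := (↑) with hcdef
  have hce : IsEmbedding c := (UniformSpace.Completion.isUniformEmbedding_coe (H j)).isEmbedding
  have hcd : DenseRange c := UniformSpace.Completion.denseRange_coe
  set f : G → UniformSpace.Completion (H j) := fun g => c ((g : ∀ i, H i) j) with hf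
  have hfc : Continuous f :=
    hce.continuous.comp ((continuous_apply j).comp continuous_subtype_val)
  -- projections of relatively open sets are dense in open sets
  have hproj : ∀ Õ : Set (∀ i, H i), IsOpen Õ → ∀ q ∈ Õ,
      q j ∈ closure ((fun g : ∀ i, H i => g j) '' (Õ ∩ G)) := by
    intro Õ hÕ q hq
    have h1 : q ∈ closure (Õ ∩ (G : Set (∀ i, H i))) := hG.open_subset_closure_inter hÕ hq
    exact image_closure_subset_closure_image (continuous_apply j) ⟨q, h1, rfl⟩
  have himg : ∀ Õ : Set (∀ i, H i), IsOpen Õ → Õ.Nonempty →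
      (interior (closure (f '' (Subtype.val ⁻¹' Õ)))).Nonempty := by
    intro Õ hÕ hne
    obtain ⟨q, hq⟩ := hne
    have hP : IsOpen ((fun g : ∀ i, H i => g j) '' Õ) := isOpenMap_eval j Õ hÕ
    obtain ⟨W, hW, hWP⟩ := hce.isInducing.isOpen_iff.mp hP
    have hsub : W ⊆ closure (f '' (Subtype.val ⁻¹' Õ)) := by
      have h1 : W ⊆ closure (W ∩ range c) := hcd.open_subset_closure_inter hW
      refine h1.trans (closure_minimal ?_ isClosed_closure)
      rintro _ ⟨hw, p, rfl⟩
      have hp : p ∈ (fun g : ∀ i, H i => g j) '' Õ := by rw [← hWP]; exact hw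
      obtain ⟨r, hr, rfl⟩ := hp
      have h2 := hproj Õ hÕ r hr
      have h3 := image_closure_subset_closure_image hce.continuous ⟨_, h2, rfl⟩
      refine closure_mono ?_ h3
      rintro _ ⟨_, ⟨g, ⟨hg1, hg2⟩, rfl⟩, rfl⟩
      exact ⟨⟨g, hg2⟩, hg1, rfl⟩
    refine ⟨c (q j), interior_maximal hsub hW ?_⟩
    have : q j ∈ c ⁻¹' W := by rw [hWP]; exact ⟨q, hq, rfl⟩
    exact this
  have hdr : DenseRange f := by
    intro w
    have h1 : w ∈ closure (range c) := hcd w
    refine closure_minimal ?_ isClosed_closure h1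
    rintro _ ⟨p, rfl⟩
    have h2 := hproj univ isOpen_univ (Function.update 1 j p) (mem_univ _)
    rw [Function.update_self] at h2
    have h3 := image_closure_subset_closure_image hce.continuous ⟨_, h2, rfl⟩
    refine closure_mono ?_ h3
    rintro _ ⟨_, ⟨g, ⟨_, hg2⟩, rfl⟩, rfl⟩
    exact ⟨⟨g, hg2⟩, rfl⟩
  obtain ⟨U, hUo, hUd, hUs⟩ := tree_lemma hT hfc hdr (by
    intro O hO hne
    obtain ⟨Õ, hÕ, rfl⟩ := isOpen_induced_iff.mp hO
    obtain ⟨g, hg⟩ := hne
    exact himg Õ hÕ ⟨g, hg⟩)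
  refine completely_metrizable_of_comeager hUo hUd (hUs.trans ?_)
  rintro _ ⟨g, rfl⟩
  exact ⟨_, rfl⟩

end Pool.Agent.Results.MP_5e9a16_gt.ToddSubgroup
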